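import Pool.Agent.H75B.Fin

/-!
# MP_6f575e_gt: integer valued invariants of structures on the 4-sphere

`DiffC` is the group of compactly supported smooth diffeomorphisms of the plane, `p : E → DiffC` a
perfect central extension (for the universal one the kernel is `H₂(DiffC; ℤ) = π₄(BΓ̄₂)`), and `φ`
a homomorphism from its kernel to a countable, torsion-free and reduced abelian group, such as `ℤ`.

Steps of the proof:
* `Pool.Agent.H75S.small_relations`: `φ` vanishes on products of `k` commutators of lifts of
  sufficiently small diffeomorphisms (self-similar infinite products, an argument of Specker);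
* `Pool.Agent.H75B.locally_perfect`: small diffeomorphisms are products of a bounded number of
  commutators of small ones (a Baire category argument from the perfectness of `DiffC`);
* `Pool.Agent.H75B.local_section`: hence the extension by `A` defined by `φ` is a covering group;
* `Pool.Agent.H75B.exists_contr`: compact sets of diffeomorphisms can be contracted (the part of
  Smale's theorem which is needed, by discrete flows and the Umlaufsatz for polygons);
* `Pool.Agent.H75B.val_zero`: hence `φ = 0`.
-/

set_option autoImplicit false

open Pool.Agent.H45F Pool.Agent.H75S Pool.Agent.H75B

namespace Pool.Agent.Results.MP_6f575e_gt.IntegerClasses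

/-- Let `p : E → DiffC` be a surjective homomorphism with central kernel, `E` perfect, and `A` a
countable torsion-free abelian group in which only `0` is divisible by all positive integers
(for instance `ℤ`).  Every homomorphism from the kernel of `p` to `A` is trivial. -/
theorem result {E : Type*} [Group E] (p : E →* DiffC) (hp : Function.Surjective p)
    (hc : p.ker ≤ Subgroup.center E) (hE : commutator E = ⊤)
    {A : Type*} [AddCommGroup A] [Countable A]
    (htf : ∀ (n : ℕ) (a : A), n ≠ 0 → n • a = 0 → a = 0)
    (hred : ∀ a : A, (∀ n : ℕ, n ≠ 0 → ∃ b : A, n • b = a) → a = 0)
    (φ : p.ker →* Multiplicative A) (z : p.ker) : φ z = 1 := by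
  have h := val_zero p hp hc hE φ htf hred z.2
  rw [val_eq φ z.2] at h
  exact h

end Pool.Agent.Results.MP_6f575e_gt.IntegerClasses
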