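import Pool.Agent.H45F.Equi3

/-!
# MP_6f575e_gt: rotation equivariant classes vanish

`DiffC` is the group of compactly supported smooth diffeomorphisms of the plane, and `Equi a b` its
subgroup of all elements which commute with every rotation about the origin and are the identity
off the annulus `a ≤ |z| ≤ b`.
-/

set_option autoImplicit false

open Pool.Agent.H45F

namespace Pool.Agent.Results.MP_6f575e_gt.RotationSplit

/-- Every perfect central extension `p : E → DiffC` of the group of compactly supported smooth
diffeomorphisms of the plane splits over the group `Equi a b` of rotation equivariant
diffeomorphisms supported in an annulus `0 < a ≤ |z| ≤ b`. -/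
theorem result {E : Type*} [Group E] (p : E →* DiffC) (hp : Function.Surjective p)
    (hc : p.ker ≤ Subgroup.center E) (hE : commutator E = ⊤) {a b : ℝ} (ha : 0 < a) :
    ∃ s : Equi a b →* E, ∀ f : Equi a b, p (s f) = f :=
  equi_split p hp hc hE ha

end Pool.Agent.Results.MP_6f575e_gt.RotationSplit
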