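import Pool.Agent.H75G.Gen

/-!
# MP_6f575e_gt: structures on the 4-sphere from flat bundles with small holonomy

`DiffC` is the group of compactly supported smooth diffeomorphisms of the plane and `p : E → DiffC`
a perfect central extension (for the universal one the kernel is `H₂(DiffC; ℤ) = π₄(BΓ̄₂)`).  An
element `[A, B] [F, T]` of the kernel is the class of the flat disc bundle over the surface of
genus two with the holonomies `p A`, `p B`, `p F`, `p T`.

Steps of the proof:
* `Pool.Agent.H75B.locally_perfect`: small diffeomorphisms are products of a bounded number of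
  commutators of small ones (a Baire category argument from the perfectness of `DiffC`);
* `Pool.Agent.H75G.small_genus_two`: a relation of `m` commutators with very small letters has
  genus two with small letters (displacement by a small translation);
* `Pool.Agent.H75G.ker_le`: modulo these classes the extension is a covering group, hence trivial
  (`Pool.Agent.H75B.exists_contr`, the part of Smale's theorem which is needed);
* `Pool.Agent.H75G.GT_mul`: rescaling does not change the `C¹` size, so that the `C¹`-small
  classes of genus two are a group.
-/

set_option autoImplicit false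

open scoped commutatorElement

open Pool.Agent.H45F Pool.Agent.H75S Pool.Agent.H75G

namespace Pool.Agent.Results.MP_6f575e_gt.SmallHolonomy

/-- The elements `[A, B] [F, T]` of the kernel of `p` such that `p A`, `p B`, `p F`, `p T` are
supported in the unit disc and `ε`-close to the identity in the `C^r` sense. -/
def SmallClasses {E : Type*} [Group E] (p : E →* DiffC) (r : ℕ) (ε : ℝ) : Set E :=
  {z | z ∈ p.ker ∧ ∃ A B F T : E, z = ⁅A, B⁆ * ⁅F, T⁆ ∧
    Small 1 r ε (p A) ∧ Small 1 r ε (p B) ∧ Small 1 r ε (p F) ∧ Small 1 r ε (p T)}

/-- Let `p : E → DiffC` be a surjective homomorphism with central kernel, `E` perfect, `r` a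
natural number and `ε > 0`.  Then `SmallClasses p r ε` generates the kernel of `p`, and it is
equal to the kernel if `r ≤ 1`. -/
theorem result {E : Type*} [Group E] (p : E →* DiffC) (hp : Function.Surjective p)
    (hc : p.ker ≤ Subgroup.center E) (hE : commutator E = ⊤) (r : ℕ) (ε : ℝ) (hε : 0 < ε) :
    Subgroup.closure (SmallClasses p r ε) = p.ker ∧
      (r ≤ 1 → SmallClasses p r ε = (p.ker : Set E)) := by
  refine ⟨closure_GT p hp hc hE r hε, fun hr => ?_⟩
  apply Set.Subset.antisymm (fun z hz => hz.1)
  intro z hz
  obtain ⟨-, A, B, F, T, e, h1, h2, h3, h4⟩ := mem_GT_one p hp hc hE hε hz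
  exact ⟨hz, A, B, F, T, e, h1.mono hr le_rfl, h2.mono hr le_rfl, h3.mono hr le_rfl,
    h4.mono hr le_rfl⟩

end Pool.Agent.Results.MP_6f575e_gt.SmallHolonomy
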