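import Pool.Agent.H75K.Tens

/-!
# MP_6f575e_gt: the group π₄(BΓ̄₂) is zero or uncountable, with all countable coefficients

`DiffC` is the group of compactly supported smooth diffeomorphisms of the plane and `p : E → DiffC`
its universal central extension, with kernel `i : K → E`; so `K = H₂(DiffC; ℤ) = π₄(BΓ̄₂)`.

Steps of the proof:
* `Pool.Agent.H75G.closure_GT`: the classes of genus two with small holonomy generate `K`
  (the hand-in SmallHolonomy);
* `Pool.Agent.H75K.exists_family`: infinite products of small classes, indexed by the subsets of
  `ℕ`; changing one element of the subset changes the class by one of the small classes;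
* `Pool.Agent.H75K.ana_LL`: by Hopf's formula `K = (R ∩ [F, F]) / [F, R]` the sets of flat bundles
  whose class lies in a coset of a subgroup such as `{x | (m x) ⊗ a = 0}` are analytic;
* `Pool.Agent.H75K.cantor`: if the index of the subgroup is countable these sets are Borel
  (Suslin), have the Baire property, and two subsets of `ℕ` which differ in one element have the
  same class; hence the subgroup contains small classes, and it is `K`.
-/

set_option autoImplicit false

open scoped TensorProduct

open Pool.Agent.H45F Pool.Agent.H75K

namespace Pool.Agent.Results.MP_6f575e_gt.ZeroOrUncountable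

/-- Let `p : E → DiffC` be the universal central extension of the group of compactly supported
smooth diffeomorphisms of the plane and `K` its kernel, written additively (embedded by `i`).
For every countable abelian group `A` and every natural number `m` the group `(m K) ⊗ A` is zero
or uncountable. -/
theorem result {K : Type*} [AddCommGroup K] {E : Type*} [Group E]
    (i : Multiplicative K →* E) (p : E →* DiffC) (hi : Function.Injective i)
    (hip : i.range = p.ker) (hp : Function.Surjective p) (hc : p.ker ≤ Subgroup.center E)
    (hE : commutator E = ⊤)
    (hu : ∀ (E' : Type) [Group E'] (q : E' →* DiffC), Function.Surjective q →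
      q.ker ≤ Subgroup.center E' → ∃ t : E →* E', ∀ x, q (t x) = p x)
    (A : Type*) [AddCommGroup A] [Countable A] (m : ℕ) :
    Subsingleton (LinearMap.range ((m : ℤ) • (LinearMap.id : K →ₗ[ℤ] K)) ⊗[ℤ] A) ∨
      Uncountable (LinearMap.range ((m : ℤ) • (LinearMap.id : K →ₗ[ℤ] K)) ⊗[ℤ] A) := by
  by_cases h : Countable (LinearMap.range ((m : ℤ) • (LinearMap.id : K →ₗ[ℤ] K)) ⊗[ℤ] A)
  · exact Or.inl (tens i p hi hip hp hc hE hu m h)
  · exact Or.inr (not_countable_iff.mp h)

end Pool.Agent.Results.MP_6f575e_gt.ZeroOrUncountable
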